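import Pool.Agent.N922.PY.Stm

/-! # Project PY (helper922), part ORD: orders at infinity (helper327) -/

set_option autoImplicit false

open Polynomial

namespace Pool.Agent.N327.PY

open Pool.Agent.N922.PY

/-- `x = s ^ N (c + ...)` -/
def Rep (x : LaurentSeries ℤ_[2]) (N : ℤ) (c : ℤ_[2]) : Prop :=
  ∃ u : PowerSeries ℤ_[2], PowerSeries.constantCoeff u = c ∧
    x = HahnSeries.single N 1 * HahnSeries.ofPowerSeries ℤ ℤ_[2] u

theorem rep_mul {x y : LaurentSeries ℤ_[2]} {N M : ℤ} {c d : ℤ_[2]} (hx : Rep x N c)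
    (hy : Rep y M d) : Rep (x * y) (N + M) (c * d) := by
  obtain ⟨u, hu, rfl⟩ := hx
  obtain ⟨v, hv, rfl⟩ := hy
  refine ⟨u * v, by rw [map_mul, hu, hv], ?_⟩
  rw [map_mul, mul_mul_mul_comm, HahnSeries.single_mul_single, one_mul]

theorem rep_add {x y : LaurentSeries ℤ_[2]} {N : ℤ} {c d : ℤ_[2]} (hx : Rep x N c)
    (hy : Rep y N d) : Rep (x + y) N (c + d) := by
  obtain ⟨u, hu, rfl⟩ := hx
  obtain ⟨v, hv, rfl⟩ := hy
  refine ⟨u + v, by rw [map_add, hu, hv], ?_⟩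
  rw [map_add, mul_add]

theorem rep_zero (N : ℤ) : Rep 0 N 0 := ⟨0, map_zero _, by rw [map_zero, mul_zero]⟩

theorem rep_C (r : ℤ_[2]) : Rep (HahnSeries.C r) 0 r := by
  refine ⟨PowerSeries.C r, by simp, ?_⟩
  rw [HahnSeries.ofPowerSeries_C]
  have h : (HahnSeries.single (0 : ℤ) (1 : ℤ_[2])) = 1 := rfl
  rw [h, one_mul]

theorem rep_lt {x : LaurentSeries ℤ_[2]} {N M : ℤ} {c : ℤ_[2]} (hx : Rep x M c) (h : N < M) :
    Rep x N 0 := by
  obtain ⟨u, hu, rfl⟩ := hx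
  refine ⟨PowerSeries.X ^ (M - N).toNat * u, ?_, ?_⟩
  · rw [map_mul, map_pow, PowerSeries.constantCoeff_X, zero_pow (by omega), zero_mul]
  · rw [map_mul, HahnSeries.ofPowerSeries_X_pow, ← mul_assoc, HahnSeries.single_mul_single,
      one_mul]
    congr 3
    omega

theorem rep_pow {x : LaurentSeries ℤ_[2]} {N : ℤ} (hx : Rep x N 1) (n : ℕ) :
    Rep (x ^ n) (n * N) 1 := by
  induction n with
  | zero =>
    rw [pow_zero]
    have h := rep_C 1
    rw [map_one] at h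
    simpa using h
  | succ n ih =>
    have h := rep_mul ih hx
    rw [one_mul] at h
    rw [pow_succ]
    have e : ((n : ℤ) * N + N) = ((n + 1 : ℕ) : ℤ) * N := by push_cast; ring
    rw [← e]
    exact h

theorem rep_coeff {x : LaurentSeries ℤ_[2]} {N : ℤ} {c : ℤ_[2]} (hx : Rep x N c) :
    x.coeff N = c ∧ ∀ n : ℤ, n < N → x.coeff n = 0 := by
  obtain ⟨u, hu, rfl⟩ := hx
  have key : ∀ n : ℤ, (HahnSeries.single N (1 : ℤ_[2]) *
      HahnSeries.ofPowerSeries ℤ ℤ_[2] u).coeff n =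
      (HahnSeries.ofPowerSeries ℤ ℤ_[2] u).coeff (n - N) := by
    intro n
    have h := HahnSeries.coeff_single_mul_add (r := (1 : ℤ_[2]))
      (x := HahnSeries.ofPowerSeries ℤ ℤ_[2] u) (a := n - N) (b := N)
    rw [sub_add_cancel, one_mul] at h
    exact h
  constructor
  · rw [key, sub_self]
    have h := HahnSeries.ofPowerSeries_apply_coeff (Γ := ℤ) u 0
    rw [Nat.cast_zero] at h
    rw [h, PowerSeries.coeff_zero_eq_constantCoeff_apply, hu]
  · intro n hn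
    rw [key]
    rw [HahnSeries.ofPowerSeries_apply]
    refine HahnSeries.embDomain_of_notMem_range ?_
    rintro ⟨k, hk⟩
    simp at hk
    omega

/-- the decomposition of a polynomial -/
theorem dec : ∀ (k : ℕ) (a : ℤ_[2][X]), a.support.card = k → ∃ a₁ a₂ : ℤ_[2][X],
    a = a₁ + (a₂ + a₂) ∧ (a₁ = 0 ∨ ¬ (2 : ℤ_[2]) ∣ a₁.leadingCoeff) := by
  intro k
  induction k using Nat.strong_induction_on with
  | _ k ih =>
    intro a hk
    by_cases h0 : a = 0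
    · exact ⟨0, 0, by rw [h0]; simp, Or.inl rfl⟩
    · by_cases h1 : (2 : ℤ_[2]) ∣ a.leadingCoeff
      · obtain ⟨q, hq⟩ := h1
        obtain ⟨a₁, a₂, h2, h3⟩ := ih _ (by rw [← hk]; exact eraseLead_support_card_lt h0)
          a.eraseLead rfl
        refine ⟨a₁, a₂ + C q * X ^ a.natDegree, ?_, h3⟩
        have h4 := a.eraseLead_add_C_mul_X_pow
        rw [hq, h2] at h4
        calc a = a₁ + (a₂ + a₂) + C (2 * q) * X ^ a.natDegree := h4.symm
          _ = _ := by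
            rw [two_mul, C_add]
            ring
      · exact ⟨a, 0, by simp, Or.inr h1⟩

section

variable {f : ℤ_[2][X]} {ι : AA f →+* LaurentSeries ℤ_[2]}

theorem mk_mul (a b : ℤ_[2][X]) : (⟨a * b, 0⟩ : AA f) = ⟨a, 0⟩ * ⟨b, 0⟩ := by
  refine QuadraticAlgebra.ext ?_ ?_ <;> simp

theorem mk_add (a b : ℤ_[2][X]) : (⟨a + b, 0⟩ : AA f) = ⟨a, 0⟩ + ⟨b, 0⟩ := by
  refine QuadraticAlgebra.ext ?_ ?_ <;> simp

theorem mk_pow (a : ℤ_[2][X]) (n : ℕ) : (⟨a ^ n, 0⟩ : AA f) = ⟨a, 0⟩ ^ n := by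
  induction n with
  | zero =>
    rw [pow_zero, pow_zero]
    rfl
  | succ n ih => rw [pow_succ, pow_succ, mk_mul, ih]

theorem mk_y (b : ℤ_[2][X]) : (⟨0, b⟩ : AA f) = ⟨b, 0⟩ * ⟨0, 1⟩ := by
  refine QuadraticAlgebra.ext ?_ ?_ <;> simp

theorem rep_a (h : IsPar f ι) (N : ℕ) : ∀ a : ℤ_[2][X], a.natDegree ≤ N →
    Rep (ι ⟨a, 0⟩) (-(2 * (N : ℤ))) (a.coeff N) := by
  have hx : Rep (ι ⟨X, 0⟩) (-2) 1 := h.x
  refine induction_with_natDegree_le (fun a => Rep (ι ⟨a, 0⟩) (-(2 * (N : ℤ))) (a.coeff N)) N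
    ?_ ?_ ?_
  · have e : ι ⟨0, 0⟩ = 0 := map_zero ι
    rw [e, coeff_zero]
    exact rep_zero _
  · intro n r _ hn
    have h1 : Rep (ι ⟨C r * X ^ n, 0⟩) (-(2 * (n : ℤ))) r := by
      rw [mk_mul, mk_pow, map_mul, map_pow, h.c]
      have h2 := rep_mul (rep_C r) (rep_pow hx n)
      rw [mul_one, zero_add] at h2
      have e : (n : ℤ) * -2 = -(2 * (n : ℤ)) := by ring
      rwa [e] at h2
    rcases hn.lt_or_eq with h3 | h3
    · rw [coeff_C_mul_X_pow, if_neg (by omega)]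
      exact rep_lt h1 (by omega)
    · rw [coeff_C_mul_X_pow, if_pos h3.symm, ← h3]
      exact h1
  · intro a b _ _ ha hb
    rw [mk_add, map_add, coeff_add]
    exact rep_add ha hb

theorem ord_a (h : IsPar f ι) (a : ℤ_[2][X]) :
    (ι ⟨a, 0⟩).coeff (-(2 * (a.natDegree : ℤ))) = a.leadingCoeff ∧
    ∀ n : ℤ, n < -(2 * (a.natDegree : ℤ)) → (ι ⟨a, 0⟩).coeff n = 0 :=
  rep_coeff (rep_a h a.natDegree a le_rfl)

theorem ord_b (h : IsPar f ι) (b : ℤ_[2][X]) :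
    (ι ⟨0, b⟩).coeff (-(2 * (b.natDegree : ℤ) + 5)) = b.leadingCoeff ∧
    ∀ n : ℤ, n < -(2 * (b.natDegree : ℤ) + 5) → (ι ⟨0, b⟩).coeff n = 0 := by
  have hy : Rep (ι ⟨0, 1⟩) (-5) 1 := h.y
  have h1 := rep_mul (rep_a h b.natDegree b le_rfl) hy
  rw [mul_one, ← map_mul, ← mk_y] at h1
  have e : -(2 * (b.natDegree : ℤ)) + -5 = -(2 * (b.natDegree : ℤ) + 5) := by ring
  rw [e] at h1
  exact rep_coeff h1

theorem coeff_two_pow (i : ℕ) (x : LaurentSeries ℤ_[2]) (n : ℤ) :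
    (2 ^ i * x).coeff n = 2 ^ i * x.coeff n := by
  have e : (2 ^ i : LaurentSeries ℤ_[2]) = HahnSeries.C (2 ^ i : ℤ_[2]) := by
    rw [map_pow, map_ofNat]
  rw [e, HahnSeries.C_mul_eq_smul, HahnSeries.coeff_smul, smul_eq_mul]

theorem coeff_const (h : IsPar f ι) (r : ℤ_[2]) {n : ℤ} (hn : n < 0) :
    (ι ⟨C r, 0⟩).coeff n = 0 := by
  rw [h.c]
  exact (rep_coeff (rep_C r)).2 n hn

/-- the main lemma -/
theorem core (h : IsPar f ι) (z : AA f)
    (hz : ∀ n : ℤ, n < 0 → n ≠ -1 → (2 : ℤ_[2]) ∣ (ι z).coeff n) :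
    ∃ (r : ℤ_[2]) (z' : AA f), z = ⟨C r, 0⟩ + 2 * z' := by
  obtain ⟨a, b⟩ := z
  obtain ⟨a₁, a₂, ha, ha'⟩ := dec _ a rfl
  obtain ⟨b₁, b₂, hb, hb'⟩ := dec _ b rfl
  have e : (⟨a, b⟩ : AA f) = ⟨a₁, 0⟩ + ⟨0, b₁⟩ + 2 * ⟨a₂, b₂⟩ := by
    rw [two_mul]
    refine QuadraticAlgebra.ext ?_ ?_
    · simp only [QuadraticAlgebra.re_add, add_zero]
      exact ha
    · simp only [QuadraticAlgebra.im_add, zero_add]
      exact hb
  have hco : ∀ n : ℤ, n < 0 → n ≠ -1 →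
      (2 : ℤ_[2]) ∣ (ι ⟨a₁, 0⟩).coeff n + (ι ⟨0, b₁⟩).coeff n := by
    intro n h1 h2
    have h3 := hz n h1 h2
    rw [e, map_add, map_add, map_mul, map_ofNat, HahnSeries.coeff_add, HahnSeries.coeff_add] at h3
    have h4 := coeff_two_pow 1 (ι ⟨a₂, b₂⟩) n
    rw [pow_one, pow_one] at h4
    rw [h4] at h3
    exact (dvd_add_left (Dvd.intro _ rfl)).1 h3
  have ha1 := ord_a h a₁
  have hb1 := ord_b h b₁
  by_cases hb0 : b₁ = 0
  · have hd : a₁.natDegree = 0 := by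
      by_contra hd
      have h1 := hco (-(2 * (a₁.natDegree : ℤ))) (by omega) (by omega)
      have h2 : (ι ⟨0, b₁⟩) = 0 := by
        rw [hb0]
        exact map_zero ι
      rw [ha1.1, h2, HahnSeries.coeff_zero, add_zero] at h1
      rcases ha' with h3 | h3
      · rw [h3, natDegree_zero] at hd
        exact hd rfl
      · exact h3 h1
    refine ⟨a₁.coeff 0, ⟨a₂, b₂⟩, ?_⟩
    rw [e, hb0, ← eq_C_of_natDegree_eq_zero hd]
    have e0 : (⟨0, 0⟩ : AA f) = 0 := rfl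
    rw [e0, add_zero]
  · exfalso
    have hb2 : ¬ (2 : ℤ_[2]) ∣ b₁.leadingCoeff := hb'.resolve_left hb0
    rcases lt_or_gt_of_ne (show (2 * (a₁.natDegree : ℤ)) ≠ 2 * (b₁.natDegree : ℤ) + 5 by omega)
      with h1 | h1
    · have h2 := hco (-(2 * (b₁.natDegree : ℤ) + 5)) (by omega) (by omega)
      rw [hb1.1, ha1.2 _ (by omega), zero_add] at h2
      exact hb2 h2
    · have h2 := hco (-(2 * (a₁.natDegree : ℤ))) (by omega) (by omega)
      rw [ha1.1, hb1.2 _ (by omega), add_zero] at h2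
      rcases ha' with h3 | h3
      · rw [h3, natDegree_zero] at h1
        push_cast at h1
        omega
      · exact h3 h2

end

theorem t_ORD : S_ORD := by
  intro f ι _ _ h
  refine ⟨ord_a h, ord_b h, ?_, ?_⟩
  · intro i
    induction i with
    | zero =>
      intro z _
      refine ⟨0, z, ?_⟩
      rw [pow_zero, one_mul, C_0]
      have e0 : (⟨0, 0⟩ : AA f) = 0 := rfl
      rw [e0, zero_add]
    | succ i ih =>
      intro z hz
      obtain ⟨r, z', hz'⟩ := ih z fun n hn => (pow_dvd_pow _ (Nat.le_succ i)).trans (hz n hn)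
      have h2 : ∀ n : ℤ, n < 0 → (2 : ℤ_[2]) ∣ (ι z').coeff n := by
        intro n hn
        have h3 := hz n hn
        rw [hz', map_add, map_mul, map_pow, map_ofNat, HahnSeries.coeff_add, coeff_const h r hn,
          zero_add, coeff_two_pow, pow_succ] at h3
        exact (mul_dvd_mul_iff_left (pow_ne_zero i (by norm_num))).1 h3
      obtain ⟨r', z'', hz''⟩ := core h z' fun n hn _ => h2 n hn
      refine ⟨r + 2 ^ i * r', z'', ?_⟩
      rw [hz', hz'', C_add, mk_add, C_mul, mk_mul]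
      have e : (⟨C ((2 : ℤ_[2]) ^ i), 0⟩ : AA f) = 2 ^ i := by
        rw [C_pow, mk_pow]
        congr 1
      rw [e]
      ring
  · intro z c hc hz
    obtain ⟨r, z', hz'⟩ := core h z (by
      intro n hn hn1
      have h1 := hz n hn
      rwa [if_neg hn1, add_zero] at h1)
    have h1 := hz (-1) (by norm_num)
    rw [if_pos rfl, hz', map_add, map_mul, map_ofNat, HahnSeries.coeff_add,
      coeff_const h r (by norm_num), zero_add] at h1
    have h4 := coeff_two_pow 1 (ι z') (-1)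
    rw [pow_one, pow_one] at h4
    rw [h4] at h1
    have h5 : (2 : ℤ_[2]) ∣ c := (dvd_add_right (Dvd.intro _ rfl)).1 h1
    have h6 : IsUnit (2 : ℤ_[2]) := isUnit_of_dvd_unit h5 hc
    have h7 : ‖(2 : ℤ_[2])‖ = 1 := PadicInt.isUnit_iff.1 h6
    have h8 : ‖((2 : ℕ) : ℤ_[2])‖ < 1 := by
      rw [PadicInt.norm_p]
      norm_num
    rw [Nat.cast_ofNat] at h8
    linarith

end Pool.Agent.N327.PY
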